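import Mathlib
import Pool.Agent.Lib.MP_78c86a_lc.LieDefs
import Pool.Agent.Lib.MP_78c86a_lc.LieMain

set_option autoImplicit false

namespace Pool.Agent.Results.MP_78c86a_lc.LieTowers

open Pool.Agent.Lib.MP_78c86a_lc

/-- There is a Borel set `B = ⋂ n, ⋃ k, C n k` with closed `C n k` that contains all conjugate pairs
and coincides with measure conjugacy on the ergodic transformations given by a finite tower of
finite-to-one and compact Lie group extensions over a discrete spectrum factor. -/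
theorem result : ∃ C : ℕ → ℕ → Set (EMPT × EMPT), (∀ n k, IsClosed (C n k)) ∧
    @MeasurableSet _ (borel (EMPT × EMPT)) (⋂ n, ⋃ k, C n k) ∧
    (∀ S T : EMPT, Conj S T → (S, T) ∈ ⋂ n, ⋃ k, C n k) ∧
    ∀ S T : EMPT, LieType S → LieType T → ((S, T) ∈ ⋂ n, ⋃ k, C n k ↔ Conj S T) := by
  choose a ha using fun n : ℕ => exists_surjective_nat (Fin n → ℕ × ℕ)
  have h1 : ∀ n k, IsClosed (Lie.Cost (Lie.cost n (a n k)) (1 / (n + 1))) := fun n k =>
    Lie.isClosed_cost _ _
  have h2 : ∀ S T : EMPT, Conj S T →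
      (S, T) ∈ ⋂ n, ⋃ k, Lie.Cost (Lie.cost n (a n k)) (1 / (n + 1)) := by
    intro S T h
    refine Set.mem_iInter.2 fun n => ?_
    obtain ⟨b, hb⟩ := Lie.cost_of_conj h n
    obtain ⟨k, rfl⟩ := ha n b
    exact Set.mem_iUnion.2 ⟨k, hb⟩
  refine ⟨fun n k => Lie.Cost (Lie.cost n (a n k)) (1 / (n + 1)), h1, ?_, h2,
    fun S T hS hT => ⟨fun h => Lie.conj_of_cost hS hT fun n => ?_, h2 S T⟩⟩
  · let _ : MeasurableSpace (EMPT × EMPT) := borel _
    have : BorelSpace (EMPT × EMPT) := ⟨rfl⟩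
    exact MeasurableSet.iInter fun n => MeasurableSet.iUnion fun k => (h1 n k).measurableSet
  · obtain ⟨k, hk⟩ := Set.mem_iUnion.1 (Set.mem_iInter.1 h n)
    exact ⟨a n k, hk⟩

end Pool.Agent.Results.MP_78c86a_lc.LieTowers
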