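import Mathlib
import Pool.Agent.Lib.MP_78c86a_lc.Defs
import Pool.Agent.Lib.MP_78c86a_lc.Transfer

set_option autoImplicit false

namespace Pool.Agent.Results.MP_78c86a_lc.NotBorel

open Pool.Agent.Lib.MP_78c86a_lc

/-- For every Borel set `B ⊆ EMPT × EMPT` there are measure distal `S`, `T` (with Furstenberg
towers of length two) such that `(S, T) ∈ B` exactly when `S` and `T` are not conjugate. -/
theorem result (B : Set (EMPT × EMPT)) (hB : @MeasurableSet _ (borel (EMPT × EMPT)) B) :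
    ∃ S T : EMPT, MeasureDistal S ∧ MeasureDistal T ∧
      HasDistalTower S.1.toFun 2 ∧ HasDistalTower T.1.toFun 2 ∧
      ((S, T) ∈ B ↔ ¬ Conj S T) := by
  obtain ⟨F, hF, h⟩ := exists_reduction
  by_contra hcon
  apply not_measurableSet_hasBranch
  let _ : MeasurableSpace (EMPT × EMPT) := borel _
  have : BorelSpace (EMPT × EMPT) := ⟨rfl⟩
  have h1 : MeasurableSet (F ⁻¹' B) := hF.measurable hB
  convert h1 using 1
  ext τ
  obtain ⟨a, b, c⟩ := h τ
  have : ¬ (F τ ∈ B ↔ ¬ Conj (F τ).1 (F τ).2) :=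
    fun e => hcon ⟨(F τ).1, (F τ).2, ⟨2, a⟩, ⟨2, b⟩, a, b, e⟩
  simp only [Set.mem_ofPred_eq, Set.mem_preimage, ← c]
  tauto

end Pool.Agent.Results.MP_78c86a_lc.NotBorel
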